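import Mathlib

set_option autoImplicit false

/-!
# A postcritically finite quadratic polynomial with `0` of infinite orbit and infinite index

Let `f = x^2 - 4 x + 5 = (x - 2)^2 + 1`, conjugate to `z^2 - 1` by `x = z + 2`, over a number
field `K`.  The critical point `2` has orbit `2, 1, 2, 1, ...`, while the orbit
`0, 5, 10, 65, ...` of `0` is infinite.  For `n = 2 j + 1` the splitting field `L_n` of
`f^n(x) - t` over `K(t)` contains an element `u` with `u^(2^(j+1)) = t - 1` (`root_odd`), and its
Galois group contains an automorphism `τ` with `τ(u) = η u`, `η` a primitive `2^(j+1)`-th root of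
unity fixed by `τ` (`exists_tau`).  At `t = 0` the element `u` reduces to a root of unity, so
`τ, τ^2, ..., τ^(2^j - 1)` are not in the decomposition group (`index_decomp`).  The degree
`[K_n : K]` is at most the order of the decomposition group (`card_decomp`).  Hence
`[L_n : K(t)] ≥ 2^j [K_n : K]`.
-/

namespace Pool.Agent.Results.MP_9fb0d9_nt.InfiniteIndex


open Polynomial
open scoped Pointwise

section tree

variable {R : Type*} [CommRing R]

/-- `f = X ^ 2 - 4 X + 5 = (X - 2) ^ 2 + 1`, conjugate of `X ^ 2 - 1` by a translation. -/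
noncomputable def bas (R : Type*) [CommRing R] : R[X] := X ^ 2 - 4 * X + 5

theorem bas_map {S : Type*} [CommRing S] (φ : R →+* S) : (bas R).map φ = bas S := by
  simp [bas]

theorem bas_natDegree [Nontrivial R] : (bas R).natDegree = 2 := by
  unfold bas
  compute_degree!

theorem bas_monic [Nontrivial R] : (bas R).Monic := by
  unfold bas
  monicity!

/-- `n`-th iterate. -/
noncomputable def it (f : R[X]) (n : ℕ) : R[X] := f.comp^[n] X

theorem it_zero (f : R[X]) : it f 0 = X := rfl

theorem it_succ (f : R[X]) (n : ℕ) : it f (n + 1) = f.comp (it f n) := by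
  unfold it
  rw [Function.iterate_succ_apply']

theorem it_map {S : Type*} [CommRing S] (φ : R →+* S) (f : R[X]) (n : ℕ) :
    (it f n).map φ = it (f.map φ) n := by
  induction n with
  | zero => simp [it_zero]
  | succ n ih => rw [it_succ, it_succ, Polynomial.map_comp, ih]

theorem it_monic_natDegree [Nontrivial R] [NoZeroDivisors R] (n : ℕ) :
    (it (bas R) n).natDegree = 2 ^ n := by
  induction n with
  | zero => simp [it_zero]
  | succ n ih => rw [it_succ, natDegree_comp, ih, bas_natDegree, pow_succ, mul_comm]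

variable {L : Type*} [Field L]

theorem it_sub_ne_zero (n : ℕ) (y : L) : it (bas L) n - C y ≠ 0 := by
  intro h
  have h1 : (it (bas L) n - C y).natDegree = 2 ^ n := by
    rw [natDegree_sub_C, it_monic_natDegree]
  rw [h, natDegree_zero] at h1
  exact (pow_pos two_pos n).ne h1

theorem it_sub_natDegree (n : ℕ) (y : L) : (it (bas L) n - C y).natDegree = 2 ^ n := by
  rw [natDegree_sub_C, it_monic_natDegree]

/-- One step down the tree. -/
theorem split_step {n : ℕ} {y : L} (h : (it (bas L) (n + 1) - C y).Splits) :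
    ∃ z : L, (z - 2) ^ 2 = y - 1 ∧ (it (bas L) n - C z).Splits ∧
      (it (bas L) n - C (4 - z)).Splits := by
  have hdeg : (it (bas L) (n + 1) - C y).degree ≠ 0 := by
    rw [degree_eq_natDegree (it_sub_ne_zero _ _), it_sub_natDegree]
    have : 0 < 2 ^ (n + 1) := pow_pos two_pos _
    exact_mod_cast this.ne'
  obtain ⟨x, hx⟩ := h.exists_eval_eq_zero hdeg
  have hz : (bas L).eval ((it (bas L) n).eval x) = y := by
    rw [it_succ] at hx
    simpa [eval_comp, sub_eq_zero] using hx
  generalize (it (bas L) n).eval x = z at hz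
  have hz' : z ^ 2 - 4 * z + 5 = y := by
    rw [← hz]; simp [bas]
  have hfac : it (bas L) (n + 1) - C y = (it (bas L) n - C z) * (it (bas L) n - C (4 - z)) := by
    rw [it_succ, ← hz']
    simp only [bas, sub_comp, add_comp, mul_comp, X_comp, C_comp, pow_comp, C_sub, C_add, C_mul,
      C_pow, ofNat_comp, C_ofNat]
    ring
  refine ⟨z, by rw [← hz']; ring, ?_, ?_⟩
  · exact h.of_dvd (it_sub_ne_zero _ _) ⟨_, hfac⟩
  · exact h.of_dvd (it_sub_ne_zero _ _) (Dvd.intro_left _ hfac.symm)

theorem root_even (j : ℕ) : ∀ y : L, (it (bas L) (2 * j) - C y).Splits →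
    ∃ v : L, v ^ 2 ^ j = 2 - y := by
  induction j with
  | zero => intro y _; exact ⟨2 - y, by simp⟩
  | succ j ih =>
    intro y h
    rw [show 2 * (j + 1) = (2 * j + 1) + 1 by ring] at h
    obtain ⟨z, hz, h1, h2⟩ := split_step h
    obtain ⟨x₁, hx₁, -, h1'⟩ := split_step h1
    obtain ⟨x₂, hx₂, -, h2'⟩ := split_step h2
    obtain ⟨v₁, hv₁⟩ := ih _ h1'
    obtain ⟨v₂, hv₂⟩ := ih _ h2'
    refine ⟨v₁ * v₂, ?_⟩
    rw [pow_succ, pow_mul, mul_pow, hv₁, hv₂]
    have e1 : (2 - (4 - x₁)) ^ 2 = z - 1 := by rw [← hx₁]; ring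
    have e2 : (2 - (4 - x₂)) ^ 2 = 3 - z := by
      have : (2 - (4 - x₂)) ^ 2 = (x₂ - 2) ^ 2 := by ring
      rw [this, hx₂]; ring
    rw [mul_pow, e1, e2]
    linear_combination (-1) * hz

theorem root_odd (j : ℕ) (t : L) (h : (it (bas L) (2 * j + 1) - C t).Splits) :
    ∃ u : L, u ^ 2 ^ (j + 1) = t - 1 := by
  obtain ⟨z, hz, -, h2⟩ := split_step h
  obtain ⟨v, hv⟩ := root_even j _ h2
  refine ⟨v, ?_⟩
  rw [pow_succ, pow_mul, hv, ← hz]
  ring

end tree




section geo

variable {k L : Type*} [Field k] [Field L] [Algebra k L] [Algebra k[X] L]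
  [Algebra (RatFunc k) L] [IsScalarTower k[X] (RatFunc k) L] [IsScalarTower k k[X] L]

theorem transc : Transcendental k (algebraMap k[X] L X) := by
  have h0 : Function.Injective (algebraMap k[X] L) := by
    rw [IsScalarTower.algebraMap_eq k[X] (RatFunc k) L]
    exact (algebraMap (RatFunc k) L).injective.comp (RatFunc.algebraMap_injective k)
  intro h
  obtain ⟨p, hp, hp0⟩ := h
  apply hp
  apply h0
  rw [map_zero, ← hp0]
  have : aeval (algebraMap k[X] L X) p = algebraMap k[X] L (aeval X p) := by
    rw [aeval_algebraMap_apply]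
  rw [this, aeval_X_left_apply]

theorem transcE : Transcendental (algebraicClosure k L) (algebraMap k[X] L X) :=
  Transcendental.extendScalars (R := k) (algebraicClosure k L) transc

/-- Elements of the compositum of `F = k(t)` with the constants. -/
theorem mem_const {x : L}
    (hx : x ∈ IntermediateField.adjoin (RatFunc k) ((algebraicClosure k L : Set L))) :
    ∃ P Q : (algebraicClosure k L)[X], Q ≠ 0 ∧
      x * aeval (algebraMap k[X] L X) Q = aeval (algebraMap k[X] L X) P := by
  have hinj : ∀ Q : (algebraicClosure k L)[X], Q ≠ 0 → aeval (algebraMap k[X] L X) Q ≠ 0 :=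
    fun Q hQ h => hQ ((transcendental_iff_injective.mp transcE) (by rw [h, map_zero]))
  have hT : ∀ p : k[X], aeval (algebraMap k[X] L X) (p.map (algebraMap k (algebraicClosure k L))) =
      algebraMap k[X] L p := by
    intro p
    rw [aeval_map_algebraMap]
    have : aeval (algebraMap k[X] L X) p = algebraMap k[X] L (aeval X p) := by
      rw [aeval_algebraMap_apply]
    rw [this, aeval_X_left_apply]
  induction hx using IntermediateField.adjoin_induction with
  | mem x hx => exact ⟨C ⟨x, hx⟩, 1, one_ne_zero, by simp⟩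
  | algebraMap x =>
    refine ⟨x.num.map (algebraMap k (algebraicClosure k L)),
      x.denom.map (algebraMap k (algebraicClosure k L)), ?_, ?_⟩
    · exact (Polynomial.map_ne_zero_iff (algebraMap k (algebraicClosure k L)).injective).mpr
        x.denom_ne_zero
    · rw [hT, hT]
      have h1 : algebraMap (RatFunc k) L x * algebraMap (RatFunc k) L (algebraMap k[X] (RatFunc k) x.denom)
          = algebraMap (RatFunc k) L (algebraMap k[X] (RatFunc k) x.num) := by
        rw [← map_mul]
        congr 1
        have := x.num_div_denom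
        have hd : algebraMap k[X] (RatFunc k) x.denom ≠ 0 :=
          RatFunc.algebraMap_ne_zero x.denom_ne_zero
        rw [div_eq_iff hd] at this
        exact this.symm
      rwa [← IsScalarTower.algebraMap_apply, ← IsScalarTower.algebraMap_apply] at h1
  | add x y _ _ hx hy =>
    obtain ⟨P, Q, hQ, h1⟩ := hx
    obtain ⟨P', Q', hQ', h1'⟩ := hy
    refine ⟨P * Q' + P' * Q, Q * Q', mul_ne_zero hQ hQ', ?_⟩
    simp only [map_mul, map_add]
    rw [← h1, ← h1']; ring
  | inv x _ hx =>
    obtain ⟨P, Q, hQ, h1⟩ := hx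
    by_cases hP : P = 0
    · refine ⟨0, 1, one_ne_zero, ?_⟩
      rw [hP, map_zero, mul_eq_zero] at h1
      have : x = 0 := h1.resolve_right (hinj Q hQ)
      simp [this]
    · refine ⟨Q, P, hP, ?_⟩
      have hx0 : x ≠ 0 := by
        rintro rfl
        rw [zero_mul] at h1
        exact hinj P hP h1.symm
      rw [← h1]
      field_simp
  | mul x y _ _ hx hy =>
    obtain ⟨P, Q, hQ, h1⟩ := hx
    obtain ⟨P', Q', hQ', h1'⟩ := hy
    refine ⟨P * P', Q * Q', mul_ne_zero hQ hQ', ?_⟩
    simp only [map_mul]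
    rw [← h1, ← h1']; ring

theorem sqrt_notMem {s : L} (hs : s ^ 2 = algebraMap k[X] L X - 1) :
    s ∉ IntermediateField.adjoin (RatFunc k) ((algebraicClosure k L : Set L)) := by
  intro h
  obtain ⟨P, Q, hQ, h1⟩ := mem_const h
  have h2 : aeval (algebraMap k[X] L X) (P ^ 2) = aeval (algebraMap k[X] L X) ((X - C 1) * Q ^ 2) := by
    rw [map_pow, ← h1, mul_pow, hs]
    simp
  have h3 : P ^ 2 = (X - C 1) * Q ^ 2 := (transcendental_iff_injective.mp transcE) h2
  have h4 := congrArg natDegree h3
  rw [natDegree_pow, natDegree_mul (X_sub_C_ne_zero _) (pow_ne_zero _ hQ), natDegree_X_sub_C,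
    natDegree_pow] at h4
  omega

/-- A Galois automorphism fixing all constants and moving `s`. -/
theorem exists_tau [FiniteDimensional (RatFunc k) L] [IsGalois (RatFunc k) L] {s : L}
    (hs : s ^ 2 = algebraMap k[X] L X - 1) :
    ∃ τ : L ≃ₐ[RatFunc k] L, (∀ x : L, IsAlgebraic k x → τ x = x) ∧ τ s = -s := by
  have h := sqrt_notMem hs
  rw [← IsGalois.fixedField_fixingSubgroup
    (IntermediateField.adjoin (RatFunc k) ((algebraicClosure k L : Set L)))] at h
  rw [IntermediateField.mem_fixedField_iff] at h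
  push Not at h
  obtain ⟨τ, hτ, hne⟩ := h
  refine ⟨τ, ?_, ?_⟩
  · intro x hx
    rw [IntermediateField.mem_fixingSubgroup_iff] at hτ
    apply hτ
    apply IntermediateField.subset_adjoin
    exact mem_algebraicClosure_iff.mpr hx
  · have h1 : (τ s) ^ 2 = s ^ 2 := by
      rw [← map_pow, hs, map_sub, map_one, IsScalarTower.algebraMap_apply k[X] (RatFunc k) L,
        AlgEquiv.commutes]
    rcases sq_eq_sq_iff_eq_or_eq_neg.mp h1 with h2 | h2
    · exact absurd h2 hne
    · exact h2

end geo




section spec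

variable {k L : Type*} [Field k] [Field L] [Algebra k L] [Algebra k[X] L]
  [Algebra (RatFunc k) L] [IsScalarTower k[X] (RatFunc k) L] [IsScalarTower k k[X] L]
  [FiniteDimensional (RatFunc k) L] [IsGalois (RatFunc k) L]

theorem surj_res (P : Ideal k[X]) (hP : P = RingHom.ker (evalRingHom (0 : k))) (x : k[X] ⧸ P) :
    ∃ c : k, x = algebraMap k (k[X] ⧸ P) c := by
  obtain ⟨p, rfl⟩ := Ideal.Quotient.mk_surjective x
  refine ⟨p.eval 0, ?_⟩
  have : algebraMap k (k[X] ⧸ P) (p.eval 0) = Ideal.Quotient.mk P (C (p.eval 0)) := rfl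
  rw [this, Ideal.Quotient.eq, hP, RingHom.mem_ker]
  simp

omit [IsScalarTower k[X] (RatFunc k) L] [FiniteDimensional (RatFunc k) L]
  [IsGalois (RatFunc k) L] [Algebra (RatFunc k) L] in
theorem hcomm (P : Ideal k[X]) (hP : P = RingHom.ker (evalRingHom (0 : k)))
    (Q : Ideal (integralClosure k[X] L)) [Q.LiesOver P] :
    (algebraMap k (integralClosure k[X] L ⧸ Q)).comp (evalRingHom (0 : k)) =
      (Ideal.Quotient.mk Q).comp (algebraMap k[X] (integralClosure k[X] L)) := by
  ext c
  · simp only [RingHom.comp_apply, coe_evalRingHom, eval_C]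
    have h1 : algebraMap k (integralClosure k[X] L ⧸ Q) c =
      Ideal.Quotient.mk Q (algebraMap k (integralClosure k[X] L) c) := rfl
    rw [h1]
    congr 1
    apply Subtype.ext
    change algebraMap k L c = algebraMap k[X] L (C c)
    rw [IsScalarTower.algebraMap_apply k k[X] L]
    rfl
  · simp only [RingHom.comp_apply, coe_evalRingHom, eval_X, map_zero]
    symm
    rw [Ideal.Quotient.eq_zero_iff_mem, ← Ideal.mem_comap]
    have : Q.comap (algebraMap k[X] (integralClosure k[X] L)) = P := (Q.over_def P).symm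
    rw [this, hP, RingHom.mem_ker]
    simp

theorem normal_res (P : Ideal k[X]) (hP : P = RingHom.ker (evalRingHom (0 : k)))
    (Q : Ideal (integralClosure k[X] L)) [Q.IsMaximal] [Q.LiesOver P] :
    let _ : Field (integralClosure k[X] L ⧸ Q) := Ideal.Quotient.field Q
    Normal k (integralClosure k[X] L ⧸ Q) := by
  intro _
  have hfr : IsFractionRing (integralClosure k[X] L) L :=
    integralClosure.isFractionRing_of_finite_extension (RatFunc k) L
  have hfin : Finite ((integralClosure k[X] L) ≃ₐ[k[X]] (integralClosure k[X] L)) :=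
    Finite.of_equiv _ (galRestrict k[X] (RatFunc k) L (integralClosure k[X] L)).toEquiv
  have hinv : Algebra.IsInvariant k[X] (integralClosure k[X] L)
      ((integralClosure k[X] L) ≃ₐ[k[X]] (integralClosure k[X] L)) :=
    Algebra.isInvariant_of_isGalois' k[X] (RatFunc k) L (integralClosure k[X] L)
  cases nonempty_fintype ((integralClosure k[X] L) ≃ₐ[k[X]] (integralClosure k[X] L))
  rw [normal_iff]
  intro x
  obtain ⟨b, rfl⟩ := Ideal.Quotient.mk_surjective x
  obtain ⟨c, hc, -, h_monic⟩ := lifts_and_natDegree_eq_and_monic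
    (Algebra.IsInvariant.charpoly_mem_lifts k[X] (integralClosure k[X] L)
      ((integralClosure k[X] L) ≃ₐ[k[X]] (integralClosure k[X] L)) b)
    (MulSemiringAction.monic_charpoly ..)
  have hm : (c.map (evalRingHom (0 : k))).Monic := h_monic.map _
  have hmap : (c.map (evalRingHom (0 : k))).map (algebraMap k (integralClosure k[X] L ⧸ Q)) =
      (MulSemiringAction.charpoly ((integralClosure k[X] L) ≃ₐ[k[X]] (integralClosure k[X] L))
        b).map (Ideal.Quotient.mk Q) := by
    rw [← hc, Polynomial.map_map, Polynomial.map_map, hcomm P hP Q]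
  have hroot : aeval (Ideal.Quotient.mk Q b) (c.map (evalRingHom (0 : k))) = 0 := by
    rw [← eval_map_algebraMap, hmap, eval_map_apply, MulSemiringAction.eval_charpoly, map_zero]
  refine ⟨⟨_, hm, hroot⟩, ?_⟩
  refine Splits.of_dvd (g := (c.map (evalRingHom (0 : k))).map
    (algebraMap k (integralClosure k[X] L ⧸ Q))) ?_ ?_ ?_
  · rw [hmap]
    exact (MulSemiringAction.splits_charpoly _ b).map _
  · exact (hm.map _).ne_zero
  · exact Polynomial.map_dvd _ (minpoly.dvd k _ hroot)

/-- Specialisation: the splitting field of a polynomial `p` over `k` which is the reduction of a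
monic polynomial over `B` splitting over `L` has degree at most the order of a decomposition
group. -/
theorem card_decomp [CharZero k] (P : Ideal k[X]) (hP : P = RingHom.ker (evalRingHom (0 : k)))
    (Q : Ideal (integralClosure k[X] L)) [Q.IsMaximal] [Q.LiesOver P]
    (p : k[X]) (Kn : Type*) [Field Kn] [Algebra k Kn] [IsSplittingField k Kn p]
    (q : (integralClosure k[X] L)[X]) (hqm : q.Monic)
    (hq : q.map (Ideal.Quotient.mk Q) = p.map (algebraMap k (integralClosure k[X] L ⧸ Q)))
    (hqs : (q.map (algebraMap (integralClosure k[X] L) L)).Splits) :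
    Module.finrank k Kn ≤ Nat.card (MulAction.stabilizer
      ((integralClosure k[X] L) ≃ₐ[k[X]] (integralClosure k[X] L)) Q) := by
  have hinj : Function.Injective (algebraMap (integralClosure k[X] L) L) :=
    IsIntegralClosure.algebraMap_injective (integralClosure k[X] L) k[X] L
  have hfr : IsFractionRing (integralClosure k[X] L) L :=
    integralClosure.isFractionRing_of_finite_extension (RatFunc k) L
  have hfin : Finite ((integralClosure k[X] L) ≃ₐ[k[X]] (integralClosure k[X] L)) :=
    Finite.of_equiv _ (galRestrict k[X] (RatFunc k) L (integralClosure k[X] L)).toEquiv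
  have hinv : Algebra.IsInvariant k[X] (integralClosure k[X] L)
      ((integralClosure k[X] L) ≃ₐ[k[X]] (integralClosure k[X] L)) :=
    Algebra.isInvariant_of_isGalois' k[X] (RatFunc k) L (integralClosure k[X] L)
  let _ : Field (integralClosure k[X] L ⧸ Q) := Ideal.Quotient.field Q
  have hnormal : Normal k (integralClosure k[X] L ⧸ Q) := normal_res P hP Q
  have hqB : q.Splits := by
    refine Splits.of_splits_map_of_injective hinj hqs ?_
    intro a ha
    have ha' : IsIntegral k[X] a := by
      have h1 : IsIntegral (integralClosure k[X] L) a :=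
        ⟨q, hqm, by
          rw [mem_roots (hqm.map _).ne_zero, IsRoot.def, eval_map] at ha
          exact ha⟩
      exact isIntegral_trans a h1
    exact ⟨⟨a, ha'⟩, rfl⟩
  have hps : (p.map (algebraMap k (integralClosure k[X] L ⧸ Q))).Splits := by
    rw [← hq]
    exact hqB.map _
  let jj : Kn →ₐ[k] (integralClosure k[X] L ⧸ Q) := IsSplittingField.lift Kn p hps
  letI : Algebra Kn (integralClosure k[X] L ⧸ Q) := jj.toRingHom.toAlgebra
  haveI : IsScalarTower k Kn (integralClosure k[X] L ⧸ Q) :=
    IsScalarTower.of_algebraMap_eq (fun x => (jj.commutes x).symm)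
  have hfd : FiniteDimensional k Kn := IsSplittingField.finiteDimensional Kn p
  have hKnormal : Normal k Kn := Normal.of_isSplittingField p
  have hGal : IsGalois k Kn := { __ := hKnormal }
  have hsurj := Ideal.Quotient.stabilizerHom_surjective
    ((integralClosure k[X] L) ≃ₐ[k[X]] (integralClosure k[X] L)) P Q
  have hex : ∀ σ : Kn ≃ₐ[k] Kn, ∃ d : MulAction.stabilizer
      ((integralClosure k[X] L) ≃ₐ[k[X]] (integralClosure k[X] L)) Q, ∀ x : Kn,
      Ideal.Quotient.stabilizerHom Q P
        ((integralClosure k[X] L) ≃ₐ[k[X]] (integralClosure k[X] L)) d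
        (algebraMap Kn (integralClosure k[X] L ⧸ Q) x) =
      algebraMap Kn (integralClosure k[X] L ⧸ Q) (σ x) := by
    intro σ
    let ρ : (integralClosure k[X] L ⧸ Q) ≃ₐ[k] (integralClosure k[X] L ⧸ Q) :=
      σ.liftNormal (integralClosure k[X] L ⧸ Q)
    let ρ' : (integralClosure k[X] L ⧸ Q) ≃ₐ[k[X] ⧸ P] (integralClosure k[X] L ⧸ Q) :=
      AlgEquiv.ofRingEquiv (f := ρ.toRingEquiv) (by
        intro x
        obtain ⟨c, rfl⟩ := surj_res P hP x
        rw [← IsScalarTower.algebraMap_apply k (k[X] ⧸ P) (integralClosure k[X] L ⧸ Q)]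
        exact ρ.commutes c)
    obtain ⟨d, hd⟩ := hsurj ρ'
    refine ⟨d, fun x => ?_⟩
    rw [hd]
    exact σ.liftNormal_commutes _ x
  choose D hD using hex
  have hDinj : Function.Injective D := by
    intro σ σ' h
    ext x
    apply (algebraMap Kn (integralClosure k[X] L ⧸ Q)).injective
    rw [← hD, ← hD, h]
  rw [← IsGalois.card_aut_eq_finrank k Kn]
  exact Nat.card_le_card_of_injective D hDinj

end spec




section index

variable {k L : Type*} [Field k] [Field L] [Algebra k L] [Algebra k[X] L]
  [Algebra (RatFunc k) L] [IsScalarTower k[X] (RatFunc k) L] [IsScalarTower k k[X] L]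
  [FiniteDimensional (RatFunc k) L] [IsGalois (RatFunc k) L]

/-- The decomposition group has index at least `2 ^ j`. -/
theorem index_decomp [CharZero k] (P : Ideal k[X]) (hP : P = RingHom.ker (evalRingHom (0 : k)))
    (Q : Ideal (integralClosure k[X] L)) [Q.IsMaximal] [Q.LiesOver P]
    (j : ℕ) (u : L) (hu : u ^ 2 ^ (j + 1) = algebraMap k[X] L X - 1) :
    2 ^ j * Nat.card (MulAction.stabilizer
      ((integralClosure k[X] L) ≃ₐ[k[X]] (integralClosure k[X] L)) Q) ≤
      Nat.card ((integralClosure k[X] L) ≃ₐ[k[X]] (integralClosure k[X] L)) := by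
  have hinj : Function.Injective (algebraMap (integralClosure k[X] L) L) :=
    IsIntegralClosure.algebraMap_injective (integralClosure k[X] L) k[X] L
  have hfin : Finite ((integralClosure k[X] L) ≃ₐ[k[X]] (integralClosure k[X] L)) :=
    Finite.of_equiv _ (galRestrict k[X] (RatFunc k) L (integralClosure k[X] L)).toEquiv
  have hL0 : CharZero L := charZero_of_injective_algebraMap (algebraMap k L).injective
  -- `u` and `η`
  have hu0 : u ≠ 0 := by
    rintro rfl
    rw [zero_pow (pow_pos two_pos _).ne'] at hu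
    have h2 := transc (k := k) (L := L)
    apply h2
    refine ⟨X - C 1, X_sub_C_ne_zero _, ?_⟩
    rw [map_sub, aeval_X, aeval_C, map_one, ← hu]
  obtain ⟨τ, hτ1, hτ2⟩ := exists_tau (k := k) (s := u ^ 2 ^ j)
    (by rw [← pow_mul, ← pow_succ, hu])
  obtain ⟨η, hη⟩ : ∃ η : L, τ u = η * u := ⟨τ u / u, by field_simp⟩
  have hη1 : η ^ 2 ^ j = -1 := by
    have h1 : τ (u ^ 2 ^ j) = η ^ 2 ^ j * u ^ 2 ^ j := by rw [map_pow, hη, mul_pow]
    rw [hτ2] at h1
    have h2 : u ^ 2 ^ j ≠ 0 := pow_ne_zero _ hu0
    apply mul_right_cancel₀ h2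
    rw [← h1]; ring
  have hη2 : η ^ 2 ^ (j + 1) = 1 := by rw [pow_succ, pow_mul, hη1]; ring
  have hη3 : τ η = η := by
    apply hτ1
    refine ⟨X ^ 2 ^ (j + 1) - C 1, ?_, by simp [hη2]⟩
    exact X_pow_sub_C_ne_zero (pow_pos two_pos _) _
  have hηint : IsIntegral k[X] η := ⟨X ^ 2 ^ (j + 1) - C 1,
    monic_X_pow_sub_C _ (pow_pos two_pos _).ne', by simp [hη2]⟩
  have huint : IsIntegral k[X] u := by
    refine ⟨X ^ 2 ^ (j + 1) - C (X - 1), monic_X_pow_sub_C _ (pow_pos two_pos _).ne', ?_⟩
    simp [hu]
  obtain ⟨uB, huB⟩ : ∃ uB : integralClosure k[X] L, algebraMap _ L uB = u := ⟨⟨u, huint⟩, rfl⟩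
  obtain ⟨ηB, hηB⟩ : ∃ ηB : integralClosure k[X] L, algebraMap _ L ηB = η := ⟨⟨η, hηint⟩, rfl⟩
  set g : (integralClosure k[X] L) ≃ₐ[k[X]] (integralClosure k[X] L) :=
    galRestrict k[X] (RatFunc k) L (integralClosure k[X] L) τ with hg
  have hgu : g uB = ηB * uB := by
    apply hinj
    rw [hg, algebraMap_galRestrict_apply, map_mul, huB, hηB, hη]
  have hgη : g ηB = ηB := by
    apply hinj
    rw [hg, algebraMap_galRestrict_apply, hηB, hη3]
  have hgη' : ∀ d : ℕ, (g ^ d) ηB = ηB := by
    intro d
    induction d with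
    | zero => simp
    | succ d ih => rw [pow_succ, AlgEquiv.mul_apply, hgη, ih]
  have hgu' : ∀ d : ℕ, (g ^ d) uB = ηB ^ d * uB := by
    intro d
    induction d with
    | zero => simp
    | succ d ih => rw [pow_succ, AlgEquiv.mul_apply, hgu, map_mul, ih, hgη']; ring
  -- residue field
  let _ : Field (integralClosure k[X] L ⧸ Q) := Ideal.Quotient.field Q
  have hκ0 : CharZero (integralClosure k[X] L ⧸ Q) :=
    charZero_of_injective_algebraMap (algebraMap k (integralClosure k[X] L ⧸ Q)).injective
  have huB1 : uB ^ 2 ^ (j + 1) = algebraMap k[X] (integralClosure k[X] L) (X - 1) := by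
    apply hinj
    rw [map_pow, huB, hu, ← IsScalarTower.algebraMap_apply, map_sub, map_one]
  have hηB1 : ηB ^ 2 ^ j = -1 := by
    apply hinj
    rw [map_pow, hηB, hη1, map_neg, map_one]
  have hub : (Ideal.Quotient.mk Q uB) ^ 2 ^ (j + 1) = -1 := by
    rw [← map_pow, huB1]
    have h1 := congrArg (fun φ => φ (X - 1)) (hcomm (L := L) P hP Q)
    simp only [RingHom.comp_apply] at h1
    rw [← h1]
    simp
  have hub0 : Ideal.Quotient.mk Q uB ≠ 0 := by
    intro h
    rw [h, zero_pow (pow_pos two_pos _).ne'] at hub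
    have : (1 : integralClosure k[X] L ⧸ Q) = 0 := by
      rw [← neg_eq_zero]; exact hub.symm
    exact one_ne_zero this
  have hηb : (Ideal.Quotient.mk Q ηB) ^ 2 ^ j = -1 := by
    rw [← map_pow, hηB1, map_neg, map_one]
  have hord : orderOf (Ideal.Quotient.mk Q ηB) = 2 ^ (j + 1) := by
    refine orderOf_eq_prime_pow (p := 2) ?_ ?_
    · rw [hηb]
      intro h
      have : (2 : integralClosure k[X] L ⧸ Q) = 0 := by linear_combination (-1) * h
      exact two_ne_zero this
    · rw [pow_succ, pow_mul, hηb]; ring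
  have hprim : IsPrimitiveRoot (Ideal.Quotient.mk Q ηB) (2 ^ (j + 1)) := by
    rw [← hord]; exact IsPrimitiveRoot.orderOf _
  have hne : NeZero (2 ^ (j + 1)) := ⟨(pow_pos two_pos _).ne'⟩
  obtain ⟨i, -, hi⟩ := hprim.eq_pow_of_pow_eq_one (ξ := (Ideal.Quotient.mk Q uB) ^ 2) (by
    rw [← pow_mul, mul_comm, pow_mul, hub]; ring)
  -- powers of `g` are not in the decomposition group
  have key : ∀ d : ℕ, 0 < d → d < 2 ^ j → g ^ d ∉ MulAction.stabilizer
      ((integralClosure k[X] L) ≃ₐ[k[X]] (integralClosure k[X] L)) Q := by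
    intro d hd0 hd1 hmem
    rw [MulAction.mem_stabilizer_iff] at hmem
    have h1 : uB ^ 2 - ηB ^ i ∈ Q := by
      rw [← Ideal.Quotient.eq, map_pow, map_pow, hi]
    have h2 : (g ^ d) • (uB ^ 2 - ηB ^ i) ∈ (g ^ d) • Q :=
      Ideal.smul_mem_pointwise_smul _ _ _ h1
    rw [hmem] at h2
    have h3 : (g ^ d) • (uB ^ 2 - ηB ^ i) = (ηB ^ d * uB) ^ 2 - ηB ^ i := by
      rw [AlgEquiv.smul_def, map_sub, map_pow, map_pow, hgu', hgη']
    rw [h3, ← Ideal.Quotient.eq, map_pow, map_mul, map_pow, map_pow, hi, mul_pow] at h2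
    have h4 : ((Ideal.Quotient.mk Q) ηB ^ d) ^ 2 = 1 := by
      have h5 : (Ideal.Quotient.mk Q) uB ^ 2 ≠ 0 := pow_ne_zero _ hub0
      apply mul_right_cancel₀ h5
      rw [h2, one_mul]
    rw [← pow_mul] at h4
    have h6 := hprim.dvd_of_pow_eq_one _ h4
    have h7 : 2 ^ (j + 1) = 2 ^ j * 2 := pow_succ _ _
    rw [h7] at h6
    have h8 := Nat.dvd_of_mul_dvd_mul_right two_pos h6
    exact absurd (Nat.le_of_dvd hd0 h8) (not_le.mpr hd1)
  -- injection
  have hmul : 2 ^ j * Nat.card (MulAction.stabilizer
      ((integralClosure k[X] L) ≃ₐ[k[X]] (integralClosure k[X] L)) Q) =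
      Nat.card (Fin (2 ^ j) × MulAction.stabilizer
      ((integralClosure k[X] L) ≃ₐ[k[X]] (integralClosure k[X] L)) Q) := by
    rw [Nat.card_prod, show Nat.card (Fin (2 ^ j)) = 2 ^ j by simp]
  rw [hmul]
  refine Nat.card_le_card_of_injective
    (fun x => g ^ (x.1 : ℕ) * (x.2 : (integralClosure k[X] L) ≃ₐ[k[X]] (integralClosure k[X] L))) ?_
  rintro ⟨a, x⟩ ⟨b, y⟩ hxy
  simp only at hxy
  have hab : ∀ (a b : Fin (2 ^ j)) (x y : MulAction.stabilizer
      ((integralClosure k[X] L) ≃ₐ[k[X]] (integralClosure k[X] L)) Q),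
      g ^ (a : ℕ) * (x : (integralClosure k[X] L) ≃ₐ[k[X]] (integralClosure k[X] L)) =
      g ^ (b : ℕ) * (y : (integralClosure k[X] L) ≃ₐ[k[X]] (integralClosure k[X] L)) →
      ¬ (a < b) := by
    intro a b x y h hlt
    apply key (b - a) (Nat.sub_pos_of_lt hlt) (lt_of_le_of_lt (Nat.sub_le _ _) b.2)
    have h1 : g ^ ((b : ℕ) - a) = (x : (integralClosure k[X] L) ≃ₐ[k[X]] (integralClosure k[X] L)) *
        (y : (integralClosure k[X] L) ≃ₐ[k[X]] (integralClosure k[X] L))⁻¹ := by
      have h2 : g ^ (b : ℕ) = g ^ (a : ℕ) * g ^ ((b : ℕ) - a) := by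
        rw [← pow_add, Nat.add_sub_of_le (le_of_lt hlt)]
      rw [h2, mul_assoc] at h
      rw [eq_mul_inv_iff_mul_eq]
      exact (mul_left_cancel h).symm
    rw [h1]
    exact mul_mem x.2 (inv_mem y.2)
  have hab' : a = b := le_antisymm (not_lt.mp (hab b a y x hxy.symm)) (not_lt.mp (hab a b x y hxy))
  subst hab'
  have := mul_left_cancel hxy
  rw [Subtype.ext this]

end index




section main

variable {k L : Type*} [Field k] [Field L] [Algebra k L] [Algebra k[X] L]
  [Algebra (RatFunc k) L] [IsScalarTower k[X] (RatFunc k) L] [IsScalarTower k k[X] L]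
  [FiniteDimensional (RatFunc k) L] [IsGalois (RatFunc k) L]

theorem main_ineq [CharZero k] (j : ℕ)
    (hsplit : (it (bas L) (2 * j + 1) - C (algebraMap k[X] L X)).Splits)
    (Kn : Type*) [Field Kn] [Algebra k Kn] [IsSplittingField k Kn (it (bas k) (2 * j + 1))] :
    2 ^ j * Module.finrank k Kn ≤ Module.finrank (RatFunc k) L := by
  obtain ⟨u, hu⟩ := root_odd j _ hsplit
  have hPmax : (RingHom.ker (evalRingHom (0 : k))).IsMaximal :=
    RingHom.ker_isMaximal_of_surjective _ (fun c => ⟨C c, by simp⟩)
  have hinjA : Function.Injective (algebraMap k[X] (integralClosure k[X] L)) := by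
    have h0 : Function.Injective (algebraMap k[X] L) := by
      rw [IsScalarTower.algebraMap_eq k[X] (RatFunc k) L]
      exact (algebraMap (RatFunc k) L).injective.comp (RatFunc.algebraMap_injective k)
    intro a b h
    apply h0
    rw [IsScalarTower.algebraMap_apply k[X] (integralClosure k[X] L) L, h,
      ← IsScalarTower.algebraMap_apply]
  have hfs : FaithfulSMul k[X] (integralClosure k[X] L) :=
    (faithfulSMul_iff_algebraMap_injective _ _).mpr hinjA
  obtain ⟨Q, hQmax, hQover⟩ := Ideal.exists_maximal_ideal_liesOver_of_isIntegral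
    (S := integralClosure k[X] L) (RingHom.ker (evalRingHom (0 : k)))
  have h1 := index_decomp _ rfl Q j u hu
  have h2 := card_decomp _ rfl Q (it (bas k) (2 * j + 1)) Kn
    (it (bas (integralClosure k[X] L)) (2 * j + 1) - C (algebraMap k[X] _ X)) ?_ ?_ ?_
  · calc 2 ^ j * Module.finrank k Kn ≤ 2 ^ j * Nat.card (MulAction.stabilizer
        ((integralClosure k[X] L) ≃ₐ[k[X]] (integralClosure k[X] L)) Q) :=
        Nat.mul_le_mul_left _ h2
      _ ≤ Nat.card ((integralClosure k[X] L) ≃ₐ[k[X]] (integralClosure k[X] L)) := h1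
      _ = Nat.card (L ≃ₐ[RatFunc k] L) :=
        Nat.card_congr (galRestrict k[X] (RatFunc k) L (integralClosure k[X] L)).symm.toEquiv
      _ = Module.finrank (RatFunc k) L := IsGalois.card_aut_eq_finrank _ _
  · have hm : ∀ n, (it (bas (integralClosure k[X] L)) (n + 1) - C (algebraMap k[X] _ X)).Monic := by
      intro n
      have hmm : ∀ m, (it (bas (integralClosure k[X] L)) m).Monic := by
        intro m
        induction m with
        | zero => exact monic_X
        | succ m ih =>
          rw [it_succ]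
          refine bas_monic.comp ih ?_
          rw [it_monic_natDegree]
          exact (pow_pos two_pos _).ne'
      refine (hmm (n + 1)).sub_of_left ?_
      refine lt_of_le_of_lt degree_C_le ?_
      rw [degree_eq_natDegree (hmm _).ne_zero, it_monic_natDegree]
      exact_mod_cast pow_pos two_pos _
    exact hm _
  · rw [Polynomial.map_sub, it_map, it_map, bas_map, bas_map, map_C]
    have h3 := congrArg (fun φ => φ X) (hcomm (L := L) (RingHom.ker (evalRingHom (0 : k))) rfl Q)
    simp only [RingHom.comp_apply] at h3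
    rw [← h3]
    simp
  · rw [Polynomial.map_sub, it_map, bas_map, map_C, ← IsScalarTower.algebraMap_apply]
    exact hsplit

end main

section final

variable (K : Type) [Field K] [CharZero K]

/-- The `n`-th iterate `f^n` of `f`. -/
noncomputable def iter {K : Type} [Field K] (f : K[X]) (n : ℕ) : K[X] := f.comp^[n] X

/-- The polynomial `f^n(x) - t` over `K(t)`. -/
noncomputable def genPoly {K : Type} [Field K] (f : K[X]) (n : ℕ) : (RatFunc K)[X] :=
  (iter f n).map RatFunc.C - C RatFunc.X

theorem ratio (j : ℕ) (Kn Ln : Type) [Field Kn] [Field Ln] [Algebra K Kn] [Algebra (RatFunc K) Ln]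
    (hK : IsSplittingField K Kn (iter (X ^ 2 - 4 * X + 5 : K[X]) (2 * j + 1)))
    (hL : IsSplittingField (RatFunc K) Ln (genPoly (X ^ 2 - 4 * X + 5 : K[X]) (2 * j + 1))) :
    2 ^ j * Module.finrank K Kn ≤ Module.finrank (RatFunc K) Ln := by
  have hF0 : CharZero (RatFunc K) :=
    charZero_of_injective_algebraMap (algebraMap K (RatFunc K)).injective
  have hg : genPoly (X ^ 2 - 4 * X + 5 : K[X]) (2 * j + 1) =
      it (bas (RatFunc K)) (2 * j + 1) - C RatFunc.X := by
    have : iter (X ^ 2 - 4 * X + 5 : K[X]) (2 * j + 1) = it (bas K) (2 * j + 1) := rfl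
    rw [genPoly, this, it_map, bas_map]
  have aux : ∀ {E : Type} [Field E] (φ : RatFunc K →+* E),
      (genPoly (X ^ 2 - 4 * X + 5 : K[X]) (2 * j + 1)).map φ =
        it (bas E) (2 * j + 1) - C (φ RatFunc.X) := by
    intro E _ φ
    rw [hg, Polynomial.map_sub, it_map, bas_map, map_C]
  let _ : Algebra K[X] Ln := ((algebraMap (RatFunc K) Ln).comp (algebraMap K[X] (RatFunc K))).toAlgebra
  let _ : Algebra K Ln := ((algebraMap (RatFunc K) Ln).comp (algebraMap K (RatFunc K))).toAlgebra
  have hst1 : IsScalarTower K[X] (RatFunc K) Ln := IsScalarTower.of_algebraMap_eq (fun _ => rfl)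
  have hst2 : IsScalarTower K (RatFunc K) Ln := IsScalarTower.of_algebraMap_eq (fun _ => rfl)
  have hst : IsScalarTower K K[X] Ln := IsScalarTower.to₁₂₄ K K[X] (RatFunc K) Ln
  have hfd : FiniteDimensional (RatFunc K) Ln :=
    IsSplittingField.finiteDimensional Ln (genPoly (X ^ 2 - 4 * X + 5 : K[X]) (2 * j + 1))
  have hsp := IsSplittingField.splits Ln (genPoly (X ^ 2 - 4 * X + 5 : K[X]) (2 * j + 1))
  have hnorm : Normal (RatFunc K) Ln :=
    Normal.of_isSplittingField (genPoly (X ^ 2 - 4 * X + 5 : K[X]) (2 * j + 1))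
  have hgal : IsGalois (RatFunc K) Ln := { __ := hnorm }
  have hsplit : (it (bas Ln) (2 * j + 1) - C (algebraMap K[X] Ln X)).Splits := by
    rw [IsScalarTower.algebraMap_apply K[X] (RatFunc K) Ln, RatFunc.algebraMap_X, ← aux]
    exact hsp
  have hKn : IsSplittingField K Kn (it (bas K) (2 * j + 1)) := hK
  exact main_ineq (k := K) (L := Ln) j hsplit Kn

end final


section properties

variable (K : Type) [Field K] [CharZero K]

/-- Integer orbit of `0`. -/
def orb : ℕ → ℤ
  | 0 => 0
  | n + 1 => orb n ^ 2 - 4 * orb n + 5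

theorem orb_ge (n : ℕ) : 5 ≤ orb (n + 1) := by
  induction n with
  | zero => simp [orb]
  | succ n ih =>
    rw [orb]
    nlinarith

theorem orb_strictMono : StrictMono orb := by
  refine strictMono_nat_of_lt_succ (fun n => ?_)
  cases n with
  | zero => simp [orb]
  | succ n =>
    have h := orb_ge n
    rw [show orb (n + 1 + 1) = orb (n + 1) ^ 2 - 4 * orb (n + 1) + 5 from rfl]
    nlinarith

theorem orb_eval (n : ℕ) :
    (fun x : K => (X ^ 2 - 4 * X + 5 : K[X]).eval x)^[n] 0 = (orb n : K) := by
  induction n with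
  | zero => simp [orb]
  | succ n ih =>
    rw [Function.iterate_succ_apply', ih, orb]
    simp

variable {K}

theorem crit {E : Type*} [Field E] [Algebra K E] {c : E}
    (hc : aeval c (derivative (X ^ 2 - 4 * X + 5 : K[X])) = 0) : c = 2 := by
  have h0 : CharZero E := charZero_of_injective_algebraMap (algebraMap K E).injective
  have h1 : derivative (X ^ 2 - 4 * X + 5 : K[X]) = C 2 * X - C 4 := by
    have h4 : (4 : K[X]) = C 4 := rfl
    have h5 : (5 : K[X]) = C 5 := rfl
    rw [h4, h5]
    simp only [derivative_add, derivative_sub, derivative_C_mul, derivative_C, derivative_X,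
      derivative_X_pow]
    simp
  rw [h1] at hc
  simp only [map_sub, map_mul, aeval_C, aeval_X, map_ofNat] at hc
  have h2 : (2 : E) ≠ 0 := two_ne_zero
  apply mul_left_cancel₀ h2
  linear_combination hc

theorem crit_orbit {E : Type*} [Field E] [Algebra K E] (n : ℕ) :
    (fun x : E => aeval x (X ^ 2 - 4 * X + 5 : K[X]))^[n] 2 = 1 ∨
      (fun x : E => aeval x (X ^ 2 - 4 * X + 5 : K[X]))^[n] 2 = 2 := by
  induction n with
  | zero => right; rfl
  | succ n ih =>
    rw [Function.iterate_succ_apply']
    rcases ih with h | h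
    · right
      rw [h]
      simp only [map_add, map_sub, map_mul, map_pow, aeval_X, map_ofNat]
      norm_num
    · left
      rw [h]
      simp only [map_add, map_sub, map_mul, map_pow, aeval_X, map_ofNat]
      norm_num

theorem crit_values {E : Type*} [Field E] [Algebra K E] (n : ℕ) : ∀ c : E,
    aeval c (derivative ((X ^ 2 - 4 * X + 5 : K[X]).comp^[n] X)) = 0 →
    aeval c ((X ^ 2 - 4 * X + 5 : K[X]).comp^[n] X) = 1 ∨
      aeval c ((X ^ 2 - 4 * X + 5 : K[X]).comp^[n] X) = 2 := by
  induction n with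
  | zero => intro c hc; simp at hc
  | succ n ih =>
    intro c hc
    rw [Function.iterate_succ_apply'] at hc ⊢
    rw [derivative_comp, map_mul, aeval_comp, mul_eq_zero] at hc
    rw [aeval_comp]
    rcases hc with hc | hc
    · rcases ih c hc with h | h
      · right
        rw [h]
        simp only [map_add, map_sub, map_mul, map_pow, aeval_X, map_ofNat]
        norm_num
      · left
        rw [h]
        simp only [map_add, map_sub, map_mul, map_pow, aeval_X, map_ofNat]
        norm_num
    · left
      rw [crit hc]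
      simp only [map_add, map_sub, map_mul, map_pow, aeval_X, map_ofNat]
      norm_num

end properties

/-- Every critical point of `f`, in any extension field of `K`, has finite forward orbit. -/
def IsPCF {K : Type} [Field K] (f : K[X]) : Prop :=
  ∀ (E : Type) [Field E] [Algebra K E] (c : E), aeval c (derivative f) = 0 →
    (Set.range fun n : ℕ => (fun x => aeval x f)^[n] c).Finite

/-- `0` is not periodic under `f`. -/
def ZeroNotPeriodic {K : Type} [Field K] (f : K[X]) : Prop :=
  ∀ m : ℕ, 1 ≤ m → (fun x : K => f.eval x)^[m] 0 ≠ 0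

/-- The points `0, f(0), f(f(0)), ...` are pairwise distinct. -/
def ZeroOrbitInfinite {K : Type} [Field K] (f : K[X]) : Prop :=
  Function.Injective fun n : ℕ => (fun x : K => f.eval x)^[n] 0

/-- `0` is not a critical value, in any extension field of `K`, of any iterate of `f`. -/
def ZeroNotCriticalValue {K : Type} [Field K] (f : K[X]) : Prop :=
  ∀ (E : Type) [Field E] [Algebra K E] (n : ℕ) (c : E), aeval c (derivative (iter f n)) = 0 →
    aeval c (iter f n) ≠ 0

/-- `sup_n [L_n : K(t)] / [K_n : K]` is infinite, where `K_n` is a splitting field of `f^n(x)` over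
`K` and `L_n` is a splitting field of `f^n(x) - t` over `K(t)`. -/
def InfiniteIndex {K : Type} [Field K] (f : K[X]) : Prop :=
  ∀ C : ℕ, ∃ n : ℕ, 1 ≤ n ∧
    ∀ (Kn Ln : Type) [Field Kn] [Field Ln] [Algebra K Kn] [Algebra (RatFunc K) Ln],
      IsSplittingField K Kn (iter f n) → IsSplittingField (RatFunc K) Ln (genPoly f n) →
        C * Module.finrank K Kn < Module.finrank (RatFunc K) Ln

/-- Over every number field `K` the polynomial `f = x^2 - 4 x + 5` is postcritically finite, the
forward orbit of `0` is infinite, `0` is not a critical value of any iterate of `f`, and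
`[L_n : K(t)] / [K_n : K]` is unbounded. -/
theorem result (K : Type) [Field K] [NumberField K] :
    ∃ f : K[X], f = X ^ 2 - 4 * X + 5 ∧ f.natDegree = 2 ∧ IsPCF f ∧ ZeroNotPeriodic f ∧
      ZeroOrbitInfinite f ∧ ZeroNotCriticalValue f ∧ InfiniteIndex f := by
  have hinj : Function.Injective fun n : ℕ =>
      (fun x : K => (X ^ 2 - 4 * X + 5 : K[X]).eval x)^[n] 0 := by
    intro a b h
    simp only [orb_eval] at h
    exact orb_strictMono.injective (Int.cast_injective h)
  refine ⟨X ^ 2 - 4 * X + 5, rfl, bas_natDegree, ?_, ?_, hinj, ?_, ?_⟩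
  · intro E _ _ c hc
    rw [crit hc]
    refine (Set.toFinite ({1, 2} : Set E)).subset ?_
    rintro _ ⟨n, rfl⟩
    exact crit_orbit n
  · intro m hm h
    have := hinj (a₁ := m) (a₂ := 0) (by simpa using h)
    omega
  · intro E _ _ n c hc h
    have h0 : CharZero E := charZero_of_injective_algebraMap (algebraMap K E).injective
    rcases crit_values n c hc with h1 | h1
    · rw [iter] at h; rw [h] at h1; exact zero_ne_one h1
    · rw [iter] at h; rw [h] at h1; exact two_ne_zero h1.symm
  · intro C
    refine ⟨2 * C + 1, by omega, ?_⟩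
    intro Kn Ln _ _ _ _ hK hL
    have h1 := ratio K C Kn Ln hK hL
    have hfd : FiniteDimensional K Kn := IsSplittingField.finiteDimensional Kn
      (iter (X ^ 2 - 4 * X + 5 : K[X]) (2 * C + 1))
    have h2 : 0 < Module.finrank K Kn := Module.finrank_pos
    have h3 : C < 2 ^ C := Nat.lt_two_pow_self
    exact lt_of_lt_of_le (Nat.mul_lt_mul_of_pos_right h3 h2) h1

end Pool.Agent.Results.MP_9fb0d9_nt.InfiniteIndex
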